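import Pool.Agent.H38.PS.Targets

/-!
# Few divisors which are almost as large as the number (CLS)
-/

set_option autoImplicit false

open Pool.Agent.H38.RB Pool.Agent.H38.PS

namespace Pool.Agent.H60.PS

/-- `a` as a product over a set which contains its prime factors -/
theorem prod_factorization {a : ℕ} {S : Finset ℕ} (ha : a ≠ 0) (hS : a.primeFactors ⊆ S) :
    a = ∏ q ∈ S, q ^ a.factorization q := by
  conv_lhs => rw [← Nat.factorization_prod_pow_eq_self ha]
  rw [Finsupp.prod, Nat.support_factorization]
  refine Finset.prod_subset hS fun q _ hq => ?_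
  have h1 : a.factorization q = 0 := by
    rw [← Finsupp.notMem_support_iff, Nat.support_factorization]
    exact hq
  rw [h1, pow_zero]

theorem log_factorization {a : ℕ} {S : Finset ℕ} (ha : a ≠ 0) (hS : a.primeFactors ⊆ S)
    (hp : ∀ q ∈ S, q.Prime) :
    Real.log a = ∑ q ∈ S, (a.factorization q : ℝ) * Real.log q := by
  have h1 : (a : ℝ) = ∏ q ∈ S, (q : ℝ) ^ a.factorization q := by
    exact_mod_cast prod_factorization ha hS
  rw [h1, Real.log_prod]
  · exact Finset.sum_congr rfl fun q _ => Real.log_pow _ _
  · intro q hq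
    exact pow_ne_zero _ (by exact_mod_cast (hp q hq).ne_zero)

/-- CLS -/
theorem pf_CLS : T_CLS := by
  classical
  intro S h hS hh
  rcases Nat.eq_zero_or_pos S.card with hk0 | hkpos
  · have hSe : S = ∅ := Finset.card_eq_zero.1 hk0
    refine ⟨{1}, by rw [Finset.card_singleton]; exact Nat.one_le_two_pow,
      fun a ha haS _ => ⟨1, by simp, one_dvd _, ?_⟩⟩
    have h0 : a = 1 := by
      have h1 : a.primeFactors = ∅ := by
        rw [hSe] at haS
        exact Finset.subset_empty.1 haS
      rcases Nat.primeFactors_eq_empty.1 h1 with h | h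
      · exact absurd h ha
      · exact h
    rw [h0]
    simp only [Nat.cast_one, Real.log_one]
    linarith
  · have h0S : 0 ∉ S := fun h0 => (hS 0 h0).ne_zero rfl
    have hkR : (0 : ℝ) < S.card := by exact_mod_cast hkpos
    obtain ⟨u, hu⟩ : ∃ u : ℝ, u = h / (4 * S.card) := ⟨_, rfl⟩
    have hu0 : 0 < u := by rw [hu]; positivity
    have huk : (S.card : ℝ) * u = h / 4 := by
      rw [hu]
      field_simp
    have hlq : ∀ q ∈ S, 0 < Real.log (q : ℝ) := fun q hq =>
      Real.log_pos (by exact_mod_cast (hS q hq).one_lt)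
    let g : (ℕ →₀ ℕ) → ℕ := fun f => ∏ q ∈ S, q ^ ⌈(f q : ℝ) * u / Real.log q⌉₊
    refine ⟨(Finset.finsuppAntidiag (insert 0 S) (8 * S.card)).image g, ?_, ?_⟩
    · calc ((Finset.finsuppAntidiag (insert 0 S) (8 * S.card)).image g).card
          ≤ (Finset.finsuppAntidiag (insert 0 S) (8 * S.card)).card := Finset.card_image_le
        _ = (S.card + 1 + 8 * S.card - 1).choose (8 * S.card) := by
            rw [Finset.card_finsuppAntidiag_nat_eq_choose, Finset.card_insert_of_notMem h0S]
        _ ≤ 2 ^ (S.card + 1 + 8 * S.card - 1) := Nat.choose_le_two_pow _ _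
        _ = 2 ^ (9 * S.card) := by
            congr 1
            omega
    · intro a ha haS hlog
      obtain ⟨c, hc⟩ : ∃ c : ℕ → ℕ, c = fun q => ⌊(a.factorization q : ℝ) * Real.log q / u⌋₊ :=
        ⟨_, rfl⟩
      have hla := log_factorization ha haS hS
      have hc1 : ∀ q ∈ S, (c q : ℝ) * u ≤ (a.factorization q : ℝ) * Real.log q := by
        intro q hq
        have h1 : (c q : ℝ) ≤ (a.factorization q : ℝ) * Real.log q / u := by
          rw [hc]
          exact Nat.floor_le (div_nonneg (mul_nonneg (Nat.cast_nonneg _) (hlq q hq).le) hu0.le)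
        rwa [le_div_iff₀ hu0] at h1
      have hc2 : ∀ q ∈ S, (a.factorization q : ℝ) * Real.log q - u ≤ (c q : ℝ) * u := by
        intro q hq
        have h1 : (a.factorization q : ℝ) * Real.log q / u < (c q : ℝ) + 1 := by
          rw [hc]
          exact Nat.lt_floor_add_one _
        rw [div_lt_iff₀ hu0] at h1
        linarith
      have hsum : ∑ q ∈ S, c q ≤ 8 * S.card := by
        have h1 : ((∑ q ∈ S, c q : ℕ) : ℝ) * u ≤ 8 * S.card * u := by
          rw [Nat.cast_sum, Finset.sum_mul]
          calc ∑ q ∈ S, (c q : ℝ) * u ≤ ∑ q ∈ S, (a.factorization q : ℝ) * Real.log q :=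
                Finset.sum_le_sum hc1
            _ = Real.log a := hla.symm
            _ ≤ 2 * h := hlog
            _ = 8 * S.card * u := by linarith
        have h2 := le_of_mul_le_mul_right h1 hu0
        exact_mod_cast h2
      obtain ⟨F, hF⟩ : ∃ F : ℕ → ℕ, F = fun q => if q = 0 then 8 * S.card - ∑ q ∈ S, c q else
        if q ∈ S then c q else 0 := ⟨_, rfl⟩
      have hFS : ∀ q ∈ S, F q = c q := by
        intro q hq
        have h1 : q ≠ 0 := fun h1 => h0S (h1 ▸ hq)
        rw [hF]
        simp only [if_neg h1, if_pos hq]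
      have hF0 : F 0 = 8 * S.card - ∑ q ∈ S, c q := by
        rw [hF]
        simp only [if_true]
      have hFsupp : ∀ q, F q ≠ 0 → q ∈ insert 0 S := by
        intro q hq
        by_contra h1
        rw [Finset.mem_insert, not_or] at h1
        apply hq
        rw [hF]
        simp only [if_neg h1.1, if_neg h1.2]
      refine ⟨g (Finsupp.onFinset (insert 0 S) F hFsupp), ?_, ?_, ?_⟩
      · refine Finset.mem_image_of_mem _ ?_
        rw [Finset.mem_finsuppAntidiag]
        constructor
        · rw [Finset.sum_insert h0S]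
          simp only [Finsupp.onFinset_apply]
          rw [hF0, Finset.sum_congr rfl hFS]
          exact Nat.sub_add_cancel hsum
        · exact Finsupp.support_onFinset_subset
      · conv_rhs => rw [prod_factorization ha haS]
        refine Finset.prod_dvd_prod_of_dvd _ _ fun q hq => pow_dvd_pow _ ?_
        rw [Nat.ceil_le]
        simp only [Finsupp.onFinset_apply]
        rw [hFS q hq, div_le_iff₀ (hlq q hq)]
        exact hc1 q hq
      · have h1 : Real.log (g (Finsupp.onFinset (insert 0 S) F hFsupp) : ℝ) =
            ∑ q ∈ S, (⌈(c q : ℝ) * u / Real.log q⌉₊ : ℝ) * Real.log q := by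
          have h2 : (g (Finsupp.onFinset (insert 0 S) F hFsupp) : ℝ) =
              ∏ q ∈ S, (q : ℝ) ^ ⌈(c q : ℝ) * u / Real.log q⌉₊ := by
            have h3 : g (Finsupp.onFinset (insert 0 S) F hFsupp) =
                ∏ q ∈ S, q ^ ⌈(c q : ℝ) * u / Real.log q⌉₊ := by
              refine Finset.prod_congr rfl fun q hq => ?_
              simp only [Finsupp.onFinset_apply]
              rw [hFS q hq]
            rw [h3]
            push_cast
            rfl
          rw [h2, Real.log_prod]
          · exact Finset.sum_congr rfl fun q _ => Real.log_pow _ _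
          · intro q hq
            exact pow_ne_zero _ (by exact_mod_cast (hS q hq).ne_zero)
        rw [h1, hla, ← huk, ← nsmul_eq_mul, ← Finset.sum_const, ← Finset.sum_sub_distrib]
        refine Finset.sum_le_sum fun q hq => ?_
        have h4 := hc2 q hq
        have h5 : (c q : ℝ) * u / Real.log q ≤ (⌈(c q : ℝ) * u / Real.log q⌉₊ : ℝ) :=
          Nat.le_ceil _
        rw [div_le_iff₀ (hlq q hq)] at h5
        linarith

end Pool.Agent.H60.PS
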