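import Pool.Agent.H43.PS.Targets

/-! DEC of the board `psd_modules`: square decomposition, all blocks. -/

namespace H43.PS

open Matrix Finset

noncomputable section

namespace DECaux

lemma sumc {X : Type} [Fintype X] {N : ℕ} (f : (Fin (N + 1) → X) → ℝ) :
    ∑ u, f u = ∑ x : X, ∑ u : Fin N → X, f (Fin.cons x u) := by
  rw [← (Fin.consEquiv (fun _ : Fin (N + 1) => X)).sum_comp, Fintype.sum_prod_type]
  rfl

lemma av_cons {X : Type} [Fintype X] [DecidableEq X] {N : ℕ} (f : (Fin (N + 1) → X) → ℝ) :
    av f = av (fun u : Fin N → X => av (fun x : X => f (Fin.cons x u))) := by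
  unfold av
  rw [sumc, Finset.sum_comm, ← Finset.mul_sum, ← mul_assoc]
  congr 1
  simp only [Fintype.card_pi, Finset.prod_const, Finset.card_univ, Fintype.card_fin]
  rw [pow_succ]
  push_cast
  rw [mul_inv]

lemma av_comm {X Y : Type} [Fintype X] [Fintype Y] (f : X → Y → ℝ) :
    av (fun x => av (fun y => f x y)) = av (fun y => av (fun x => f x y)) := by
  unfold av
  simp only [← Finset.mul_sum]
  rw [Finset.sum_comm]
  ring

lemma av_mono {X : Type} [Fintype X] {f g : X → ℝ} (h : ∀ x, f x ≤ g x) : av f ≤ av g := by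
  unfold av
  exact mul_le_mul_of_nonneg_left (Finset.sum_le_sum fun x _ => h x) (by positivity)

lemma av_mul {X : Type} [Fintype X] (c : ℝ) (f : X → ℝ) : av (fun x => c * f x) = c * av f := by
  unfold av
  rw [← Finset.mul_sum]
  ring

lemma av_sum {X Y : Type} [Fintype X] [Fintype Y] (f : X → Y → ℝ) :
    av (fun x => ∑ y, f x y) = ∑ y, av (fun x => f x y) := by
  unfold av
  rw [Finset.sum_comm, Finset.mul_sum]

lemma av_unique {X : Type} [Fintype X] [Unique X] (f : X → ℝ) : av f = f default := by
  unfold av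
  simp

/-- the splitting of the index. -/
def sp (O κ : Type) (N : ℕ) : ((Fin (N + 1) → O) × κ) ≃ ((Fin N → O) × (O × κ)) where
  toFun u := (Fin.tail u.1, (u.1 0, u.2))
  invFun v := (Fin.cons v.2.1 v.1, v.2.2)
  left_inv u := by simp
  right_inv v := by simp

end DECaux

open DECaux

theorem DEC (hSTP : T_STP) (hRIX : T_RIX) : T_DEC := by
  intro Θ _ _ p σ hp hp2 hσ hΘ N q hq
  have hKK : 0 ≤ KK (Fintype.card Θ) q p σ := by
    unfold KK
    have h1 : (0 : ℝ) < q := by exact_mod_cast hq
    have h2 : (0 : ℝ) < Fintype.card Θ := by exact_mod_cast hΘ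
    have h3 : (0 : ℝ) < p - 1 := by linarith
    positivity
  induction N with
  | zero =>
    intro ι _ _ P hP
    refine ⟨fun _ => (P default).submatrix (Equiv.uniqueProd ι (Fin 0 → Option Θ))
      (Equiv.uniqueProd ι (Fin 0 → Option Θ)), fun b => (hP default).submatrix _, ?_, ?_⟩
    · intro b z x y
      rw [av_unique]
      simp only [Fintype.sum_unique, ind, cz, Finset.univ_eq_empty, Finset.prod_empty, one_mul,
        Matrix.submatrix_apply]
      rfl
    · rw [av_unique, av_unique, pow_zero, one_mul]
      unfold tp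
      rw [hRIX]
  | succ N ih =>
    intro ι _ _ P hP
    have hH := fun a' : Fin N → Fin q → Θ => hSTP ι Θ p σ hp hp2 hσ hΘ q
      (fun a0 => P (Fin.cons a0 a')) hq fun a0 => hP _
    choose H hHp hHf hHb using hH
    have hG := fun b0 : Fin q => ih (Option Θ × ι) (fun a' => H a' b0) fun a' => hHp a' b0
    choose G hGp hGf hGb using hG
    refine ⟨fun b => (G (b 0) (Fin.tail b)).submatrix (sp (Option Θ) ι N) (sp (Option Θ) ι N),
      fun b => (hGp _ _).submatrix _, ?_, ?_⟩
    · intro b z x y
      rw [av_cons]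
      have h1 : ∀ a' : Fin N → Fin q → Θ,
          av (fun a0 : Fin q → Θ => ind (Fin.cons a0 a' : Fin (N + 1) → Fin q → Θ) b z *
            P (Fin.cons a0 a') x y) =
          ∑ u0, ∑ u0', cc σ (z 0) u0 * cc σ (z 0) u0' *
            (ind a' (Fin.tail b) (Fin.tail z) * H a' (b 0) (u0, x) (u0', y)) := by
        intro a'
        have h2 : (fun a0 : Fin q → Θ => ind (Fin.cons a0 a' : Fin (N + 1) → Fin q → Θ) b z *
            P (Fin.cons a0 a') x y) = fun a0 => ind a' (Fin.tail b) (Fin.tail z) *
            ((if a0 (b 0) = z 0 then (Fintype.card Θ : ℝ) else 0) *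
              P (Fin.cons a0 a') x y) := by
          funext a0
          unfold ind
          rw [Fin.prod_univ_succ]
          simp only [Fin.cons_zero, Fin.cons_succ, Fin.tail]
          ring
        rw [h2, av_mul, hHf a' (b 0) (z 0) x y, Finset.mul_sum]
        refine Finset.sum_congr rfl fun u0 _ => ?_
        rw [Finset.mul_sum]
        refine Finset.sum_congr rfl fun u0' _ => ?_
        ring
      rw [funext h1, av_sum]
      have h3 : ∀ u0 : Option Θ, av (fun a' : Fin N → Fin q → Θ =>
          ∑ u0', cc σ (z 0) u0 * cc σ (z 0) u0' *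
            (ind a' (Fin.tail b) (Fin.tail z) * H a' (b 0) (u0, x) (u0', y))) =
          ∑ u0', cc σ (z 0) u0 * cc σ (z 0) u0' * ∑ u, ∑ u',
            cz σ (Fin.tail z) u * cz σ (Fin.tail z) u' *
              G (b 0) (Fin.tail b) (u, (u0, x)) (u', (u0', y)) := by
        intro u0
        rw [av_sum]
        refine Finset.sum_congr rfl fun u0' _ => ?_
        rw [av_mul, hGf (b 0) (Fin.tail b) (Fin.tail z) (u0, x) (u0', y)]
      rw [Finset.sum_congr rfl fun u0 _ => h3 u0, sumc]
      refine Finset.sum_congr rfl fun u0 _ => ?_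
      have hcz : ∀ (u0 : Option Θ) (u : Fin N → Option Θ),
          cz σ z (Fin.cons u0 u : Fin (N + 1) → Option Θ) =
            cc σ (z 0) u0 * cz σ (Fin.tail z) u := by
        intro u0 u
        unfold cz
        rw [Fin.prod_univ_succ]
        simp only [Fin.cons_zero, Fin.cons_succ, Fin.tail]
      have h4 : ∀ u : Fin N → Option Θ,
          ∑ u' : Fin (N + 1) → Option Θ, cz σ z (Fin.cons u0 u : Fin (N + 1) → Option Θ) *
            cz σ z u' * (G (b 0) (Fin.tail b)).submatrix (sp (Option Θ) ι N) (sp (Option Θ) ι N)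
              (Fin.cons u0 u, x) (u', y) =
          ∑ u0', ∑ u', cc σ (z 0) u0 * cc σ (z 0) u0' *
            (cz σ (Fin.tail z) u * cz σ (Fin.tail z) u' *
              G (b 0) (Fin.tail b) (u, (u0, x)) (u', (u0', y))) := by
        intro u
        rw [sumc]
        refine Finset.sum_congr rfl fun u0' _ => Finset.sum_congr rfl fun u' _ => ?_
        rw [hcz, hcz]
        simp only [Matrix.submatrix_apply, sp, Equiv.coe_fn_mk, Fin.tail_cons, Fin.cons_zero]
        ring
      rw [Finset.sum_congr rfl fun u _ => h4 u, Finset.sum_comm]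
      refine Finset.sum_congr rfl fun u0' _ => ?_
      rw [Finset.mul_sum]
      refine Finset.sum_congr rfl fun u _ => ?_
      rw [Finset.mul_sum]
    · have h1 : ∀ b : Fin (N + 1) → Fin q,
          tp p ((G (b 0) (Fin.tail b)).submatrix (sp (Option Θ) ι N) (sp (Option Θ) ι N)) =
            tp p (G (b 0) (Fin.tail b)) := by
        intro b
        unfold tp
        rw [hRIX]
      rw [funext h1, av_cons, av_comm]
      simp only [Fin.cons_zero, Fin.tail_cons]
      calc av (fun b0 : Fin q => av (fun b' : Fin N → Fin q => tp p (G b0 b')))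
          ≤ av (fun b0 : Fin q => KK (Fintype.card Θ) q p σ ^ N *
              av (fun a' : Fin N → Fin q → Θ => tp p (H a' b0))) := av_mono hGb
        _ = KK (Fintype.card Θ) q p σ ^ N * av (fun a' : Fin N → Fin q → Θ =>
              av (fun b0 : Fin q => tp p (H a' b0))) := by rw [av_mul, av_comm]
        _ ≤ KK (Fintype.card Θ) q p σ ^ N * av (fun a' : Fin N → Fin q → Θ =>
              KK (Fintype.card Θ) q p σ * av (fun a0 : Fin q → Θ => tp p (P (Fin.cons a0 a')))) :=
            mul_le_mul_of_nonneg_left (av_mono hHb) (pow_nonneg hKK N)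
        _ = KK (Fintype.card Θ) q p σ ^ (N + 1) * av (fun a => tp p (P a)) := by
            rw [av_mul, av_cons (fun a => tp p (P a)), pow_succ]
            ring

end

end H43.PS
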