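import Pool.Agent.H38.PS.Targets

/-!
# Packing items of total size below three (BIN)
-/

set_option autoImplicit false

open Pool.Agent.H38.RB Pool.Agent.H38.PS

namespace Pool.Agent.H60.PS

/-- packing into `b` bins -/
theorem packing (L : Finset ℕ) (y : ℕ → ℝ) (b : ℕ) (hb : 1 ≤ b) (h0 : ∀ p ∈ L, 0 ≤ y p)
    (h1 : ∀ p ∈ L, y p ≤ 6 / 7) (hs : ∑ p ∈ L, y p < ((b : ℝ) + 1) * (3 / 7)) :
    ∃ φ : ℕ → Fin b, ∀ i, ∑ p ∈ L with φ p = i, y p ≤ 6 / 7 := by
  classical
  obtain ⟨B, hB⟩ : ∃ B : Finset ℕ, B = L.filter fun p => 3 / 7 < y p := ⟨_, rfl⟩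
  have hBL : B ⊆ L := by rw [hB]; exact Finset.filter_subset _ _
  have hBy : ∀ p ∈ B, 3 / 7 < y p := fun p hp => by
    rw [hB] at hp
    exact (Finset.mem_filter.1 hp).2
  have hBc : B.card ≤ b := by
    by_contra hcon
    push Not at hcon
    have h2 : ((b : ℝ) + 1) * (3 / 7) ≤ B.card * (3 / 7) := by
      have : (b : ℝ) + 1 ≤ B.card := by exact_mod_cast hcon
      linarith
    have h3 : (B.card : ℝ) * (3 / 7) ≤ ∑ p ∈ B, y p := by
      rw [← nsmul_eq_mul]
      exact Finset.card_nsmul_le_sum _ _ _ fun p hp => (hBy p hp).le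
    have h4 : ∑ p ∈ B, y p ≤ ∑ p ∈ L, y p :=
      Finset.sum_le_sum_of_subset_of_nonneg hBL fun p hp _ => h0 p hp
    linarith
  -- insertion of the small items
  have key : ∀ M : Finset ℕ, M ⊆ L \ B → ∃ φ : ℕ → Fin b, ∀ i,
      ∑ p ∈ B ∪ M with φ p = i, y p ≤ 6 / 7 := by
    intro M
    induction M using Finset.induction_on with
    | empty =>
      intro _
      refine ⟨fun p => if h : p ∈ B then Fin.castLE hBc (B.equivFin ⟨p, h⟩) else ⟨0, hb⟩, ?_⟩
      intro i
      have hc1 : ((B ∪ ∅).filter fun p => (if h : p ∈ B then Fin.castLE hBc (B.equivFin ⟨p, h⟩)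
          else ⟨0, hb⟩) = i).card ≤ 1 := by
        rw [Finset.card_le_one]
        intro p hp q hq
        rw [Finset.union_empty, Finset.mem_filter] at hp hq
        obtain ⟨hp1, hp2⟩ := hp
        obtain ⟨hq1, hq2⟩ := hq
        rw [dif_pos hp1] at hp2
        rw [dif_pos hq1] at hq2
        have h5 : B.equivFin ⟨p, hp1⟩ = B.equivFin ⟨q, hq1⟩ := by
          apply Fin.castLE_injective hBc
          rw [hp2, hq2]
        have h6 := B.equivFin.injective h5
        exact congrArg Subtype.val h6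
      refine (Finset.sum_le_card_nsmul _ _ (6 / 7) fun p hp => ?_).trans ?_
      · have hp1 := (Finset.mem_filter.1 hp).1
        rw [Finset.union_empty] at hp1
        exact h1 p (hBL hp1)
      · rw [nsmul_eq_mul]
        have h7 : (((B ∪ ∅).filter fun p => (if h : p ∈ B then Fin.castLE hBc
          (B.equivFin ⟨p, h⟩) else ⟨0, hb⟩) = i).card : ℝ) ≤ 1 := by exact_mod_cast hc1
        linarith
    | insert p M hpM ih =>
      intro hM
      obtain ⟨φ, hφ⟩ := ih (fun q hq => hM (Finset.mem_insert_of_mem hq))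
      have hpLB := hM (Finset.mem_insert_self p M)
      rw [Finset.mem_sdiff] at hpLB
      have hpB : p ∉ B ∪ M := by
        rw [Finset.mem_union, not_or]
        exact ⟨hpLB.2, hpM⟩
      have hyp : y p ≤ 3 / 7 := by
        by_contra h5
        push Not at h5
        apply hpLB.2
        rw [hB, Finset.mem_filter]
        exact ⟨hpLB.1, h5⟩
      have hsub : insert p (B ∪ M) ⊆ L := by
        intro q hq
        rcases Finset.mem_insert.1 hq with rfl | hq
        · exact hpLB.1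
        · rcases Finset.mem_union.1 hq with hq | hq
          · exact hBL hq
          · exact (Finset.mem_sdiff.1 (hM (Finset.mem_insert_of_mem hq))).1
      have htot : y p + ∑ q ∈ B ∪ M, y q < ((b : ℝ) + 1) * (3 / 7) := by
        rw [← Finset.sum_insert hpB]
        exact lt_of_le_of_lt (Finset.sum_le_sum_of_subset_of_nonneg hsub
          fun q hq _ => h0 q hq) hs
      obtain ⟨i, hi⟩ : ∃ i, ∑ q ∈ B ∪ M with φ q = i, y q ≤ 6 / 7 - y p := by
        by_contra hcon
        push Not at hcon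
        have h5 : ∑ q ∈ B ∪ M, y q = ∑ i : Fin b, ∑ q ∈ B ∪ M with φ q = i, y q :=
          (Finset.sum_fiberwise _ _ _).symm
        have h6 : (b : ℝ) * (6 / 7 - y p) ≤ ∑ i : Fin b, ∑ q ∈ B ∪ M with φ q = i, y q := by
          have h7 := Finset.card_nsmul_le_sum (Finset.univ : Finset (Fin b))
            (fun i => ∑ q ∈ B ∪ M with φ q = i, y q) (6 / 7 - y p) fun i _ => (hcon i).le
          rw [Finset.card_univ, Fintype.card_fin, nsmul_eq_mul] at h7
          exact h7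
        have hb1 : (1 : ℝ) ≤ b := by exact_mod_cast hb
        have h8 : ((b : ℝ) - 1) * y p ≤ ((b : ℝ) - 1) * (3 / 7) :=
          mul_le_mul_of_nonneg_left hyp (by linarith)
        nlinarith
      refine ⟨Function.update φ p i, fun j => ?_⟩
      have h9 : ∀ q ∈ B ∪ M, Function.update φ p i q = φ q := by
        intro q hq
        have hne : q ≠ p := by
          rintro rfl
          exact hpB hq
        exact Function.update_of_ne hne _ _
      have h10 : (B ∪ M).filter (fun q => Function.update φ p i q = j) =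
          (B ∪ M).filter (fun q => φ q = j) :=
        Finset.filter_congr fun q hq => by rw [h9 q hq]
      rw [Finset.union_insert, Finset.filter_insert, Function.update_self, h10]
      by_cases hij : i = j
      · rw [if_pos hij, Finset.sum_insert fun h => hpB (Finset.mem_filter.1 h).1]
        rw [← hij]
        linarith
      · rw [if_neg hij]
        exact hφ j
  obtain ⟨φ, hφ⟩ := key (L \ B) (Finset.Subset.refl _)
  rw [Finset.union_sdiff_of_subset hBL] at hφ
  exact ⟨φ, hφ⟩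

/-- BIN -/
theorem pf_BIN : T_BIN := by
  classical
  intro T y h0 hs
  obtain ⟨Q, hQ⟩ : ∃ Q : Finset ℕ, Q = T.filter fun p => 6 / 7 < y p := ⟨_, rfl⟩
  have hQT : Q ⊆ T := by rw [hQ]; exact Finset.filter_subset _ _
  have hQy : ∀ p ∈ Q, 6 / 7 ≤ y p := fun p hp => by
    rw [hQ] at hp
    exact (Finset.mem_filter.1 hp).2.le
  have hLy : ∀ p ∈ T \ Q, y p ≤ 6 / 7 := fun p hp => by
    obtain ⟨h1, h2⟩ := Finset.mem_sdiff.1 hp
    by_contra h3
    push Not at h3
    apply h2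
    rw [hQ, Finset.mem_filter]
    exact ⟨h1, h3⟩
  have hL0 : ∀ p ∈ T \ Q, 0 ≤ y p := fun p hp => h0 p (Finset.mem_sdiff.1 hp).1
  have h2 : (Q.card : ℝ) * (6 / 7) ≤ ∑ p ∈ Q, y p := by
    rw [← nsmul_eq_mul]
    exact Finset.card_nsmul_le_sum _ _ _ hQy
  have h3 : ∑ p ∈ T \ Q, y p + ∑ p ∈ Q, y p = ∑ p ∈ T, y p := Finset.sum_sdiff hQT
  have h4 : 0 ≤ ∑ p ∈ T \ Q, y p := Finset.sum_nonneg hL0
  -- the final step for a given number of bins
  have fin : ∀ b : ℕ, 1 ≤ b → ∑ p ∈ T \ Q, y p < ((b : ℝ) + 1) * (3 / 7) →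
      ((Q.card = 0 ∧ b = 6) ∨ (Q.card = 1 ∧ b = 4) ∨ (Q.card = 2 ∧ b = 2) ∨
        (Q.card = 3 ∧ b = 1)) →
      ∃ (Q : Finset ℕ) (b : ℕ) (f : Fin b → Finset ℕ), Q ⊆ T ∧
        (∀ i, f i ⊆ T ∧ ∑ p ∈ f i, y p ≤ 6 / 7) ∧ (∀ p ∈ T, p ∉ Q → ∃ i, p ∈ f i) ∧
        ((Q.card = 0 ∧ b = 6) ∨ (Q.card = 1 ∧ b = 4) ∨ (Q.card = 2 ∧ b = 2) ∨
          (Q.card = 3 ∧ b = 1)) := by
    intro b hb hsb hcase
    obtain ⟨φ, hφ⟩ := packing (T \ Q) y b hb hL0 hLy hsb
    refine ⟨Q, b, fun i => (T \ Q).filter fun p => φ p = i, hQT, fun i => ⟨?_, hφ i⟩, ?_, hcase⟩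
    · exact (Finset.filter_subset _ _).trans Finset.sdiff_subset
    · intro p hp hpQ
      exact ⟨φ p, Finset.mem_filter.2 ⟨Finset.mem_sdiff.2 ⟨hp, hpQ⟩, rfl⟩⟩
  have h5 : Q.card ≤ 3 := by
    by_contra hcon
    push Not at hcon
    have : (4 : ℝ) ≤ Q.card := by exact_mod_cast hcon
    linarith
  obtain h6 | h6 | h6 | h6 : Q.card = 0 ∨ Q.card = 1 ∨ Q.card = 2 ∨ Q.card = 3 := by omega
  · refine fin 6 (by norm_num) ?_ (Or.inl ⟨h6, rfl⟩)
    rw [h6] at h2
    norm_num at h2 ⊢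
    linarith
  · refine fin 4 (by norm_num) ?_ (Or.inr (Or.inl ⟨h6, rfl⟩))
    rw [h6] at h2
    norm_num at h2 ⊢
    linarith
  · refine fin 2 (by norm_num) ?_ (Or.inr (Or.inr (Or.inl ⟨h6, rfl⟩)))
    rw [h6] at h2
    norm_num at h2 ⊢
    linarith
  · refine fin 1 (by norm_num) ?_ (Or.inr (Or.inr (Or.inr ⟨h6, rfl⟩)))
    rw [h6] at h2
    norm_num at h2 ⊢
    linarith

end Pool.Agent.H60.PS
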